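import Pool.Agent.W595.Plane.Assemble
import Pool.Agent.W595.Plane.GeoMain
import Pool.Agent.W595.Plane.Hurwitz
import Pool.Agent.W595.Plane.Model
import Pool.Agent.W595.Plane.Stmt

/-!
# Tight embeddings of the quaternionic and the Cayley projective plane are standard

Positive answer to both questions. The definitions of the statement are in
`Pool/Agent/W595/Plane/Defs.lean`, `Pool/Agent/W595/Plane/Hyp.lean` and
`Pool/Agent/W595/Plane/Stmt.lean`.

Idea of the proof. Write `x̂ = (1, f x)`, `V = ℝ × E`.
* Tightness and the Betti numbers show (in Alexander-Spanier cohomology mod 2) that nondegenerate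
  critical points of linear functions have index `0`, `d`, `2d`; that any two points lie in a common
  top set; and that top sets of nullity `d` are `d`-spheres.
* At a point `p` which is a strict farthest point from some centre (up to a projective transformation)
  the first fact makes the space of functionals vanishing to first order at `p` a Lorentz space, whose
  cone of positive vectors is the cone of supporting functionals; so there is a quadratic form `Q_p` of
  Lorentz signature on `V / T_p` which vanishes on `f(M)`. A second order argument with three such
  forms shows that every point of `M` is of this kind.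
* Three points in general position give linear coordinates `(ξ₀, ξ₁, ξ₂, a₀, a₁, a₂)` in which `f(M)`
  is given by `ξ₁ ξ₂ = |a₀|²`, `ξ₂ ξ₀ = |a₁|²`, `ξ₀ ξ₁ = |a₂|²`, `ξ₀ a₀ = B(a₁, a₂)` with
  a bilinear product `B` with `|B(a, b)| = |a| |b|`, and the Hurwitz theorem applies.
-/

set_option autoImplicit false

namespace Pool.Agent.Results.MP_3b4c52_gt.TightPlanesStandard

open Pool.Agent.W595.Plane
open scoped Manifold ContDiff Quaternion

/-- Let `d = 4`, `K` the quaternions, or `d = 8`, `K` the Cayley numbers. Let `M` be a closed smooth
`2d`-manifold with the Betti numbers mod 2 of a projective plane (`β_0 = β_d = β_{2d} = 1`, all others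
zero), and `f : M → E^{3d+2}` a smooth immersion (for example an embedding) which is tight and
substantial. Then `f(M)` is the standard model `{X ∈ Herm_3(K) | X² = X, tr X = 1}` up to a projective
transformation. -/
theorem result :
    TightPlanesAreStandard 4 (EuclideanSpace ℝ (Fin 8)) (EuclideanSpace ℝ (Fin 14)) ℍ[ℝ] ∧
      TightPlanesAreStandard 8 (EuclideanSpace ℝ (Fin 16)) (EuclideanSpace ℝ (Fin 26)) Oct := by
  constructor
  · intro M _ _ hM hL f hf ht hs
    obtain ⟨h1, h2, h3⟩ := hM
    obtain ⟨D, hD⟩ := exists_td (d := 4) (by norm_num) hL hf.1 hf.2 ht hs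
    exact model_quat f (geo_of_td D f hD) hurwitz_quat
  · intro M _ _ hM hL f hf ht hs
    obtain ⟨h1, h2, h3⟩ := hM
    obtain ⟨D, hD⟩ := exists_td (d := 8) (by norm_num) hL hf.1 hf.2 ht hs
    exact model_oct f (geo_of_td D f hD) hurwitz_oct

end Pool.Agent.Results.MP_3b4c52_gt.TightPlanesStandard
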